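import Mathlib

/-!
# The Borsuk number of a matroid. Definitions
-/

set_option autoImplicit false

namespace Pool.Agent.helper3.BN

variable {α : Type*}

/-- The diameter of the set of bases of `M` for the distance `|B ∆ B'|`: the largest distance of two bases. -/
noncomputable def diam (M : Matroid α) : ℕ :=
  sSup {d | ∃ B B' : Set α, M.IsBase B ∧ M.IsBase B' ∧ d = (symmDiff B B').ncard}

/-- The set of bases of `M` can be partitioned into (at most) `k` parts, numbered by `Fin k`, such that any two bases of one part have
distance less than the diameter of the set of bases. -/
def Splits (M : Matroid α) (k : ℕ) : Prop :=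
  ∃ g : {B : Set α // M.IsBase B} → Fin k, ∀ B B', g B = g B' → (symmDiff B.1 B'.1).ncard < diam M

/-- The Borsuk number `f(M)`: the least `k` such that the set of bases of `M` can be partitioned into `k` parts of smaller diameter,
and `∞` if there is no such `k`. -/
noncomputable def borsukNumber (M : Matroid α) : ℕ∞ := ⨅ (k : ℕ) (_ : Splits M k), (k : ℕ∞)

/-- `e` and `f` lie in a common circuit of `M`. -/
def InCircuit (M : Matroid α) (e f : α) : Prop := ∃ C, M.IsCircuit C ∧ e ∈ C ∧ f ∈ C

/-- The connected components of `M`: the classes in the ground set `E` of the equivalence relation generated by lying in a common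
circuit. -/
def components (M : Matroid α) : Set (Set α) :=
  {K | ∃ e ∈ M.E, K = {f | f ∈ M.E ∧ Relation.EqvGen (InCircuit M) e f}}

end Pool.Agent.helper3.BN
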