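import Pool.Agent.helper3.BN.Defs
import Pool.Agent.helper3.MatroidUnion

/-!
# The bound `f(M) ≤ min (n - c) (max r (n - r)) + 1` for the Borsuk number of a matroid
-/

set_option autoImplicit false

open Set

namespace Pool.Agent.helper3.BN

variable {α : Type*} [Finite α]

/-- the class of `e` -/
def cls (M : Matroid α) (e : α) : Set α := {f | f ∈ M.E ∧ Relation.EqvGen (InCircuit M) e f}

omit [Finite α] in
lemma mem_cls_self {M : Matroid α} {e : α} (he : e ∈ M.E) : e ∈ cls M e := ⟨he, Relation.EqvGen.refl e⟩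

omit [Finite α] in
lemma cls_eq {M : Matroid α} {e f : α} (h : Relation.EqvGen (InCircuit M) e f) : cls M e = cls M f := by
  ext x
  constructor
  · rintro ⟨hx, h1⟩
    exact ⟨hx, Relation.EqvGen.trans _ _ _ (Relation.EqvGen.symm _ _ h) h1⟩
  · rintro ⟨hx, h1⟩
    exact ⟨hx, Relation.EqvGen.trans _ _ _ h h1⟩

/-- a class has at most `n - c + 1` elements -/
lemma ncard_cls_add {M : Matroid α} {e : α} (he : e ∈ M.E) :
    (cls M e).ncard + (components M).ncard ≤ M.E.ncard + 1 := by
  classical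
  have hsub : cls M e ⊆ M.E := fun x hx => hx.1
  have h1 : (M.E \ cls M e).ncard + (cls M e).ncard = M.E.ncard :=
    Set.ncard_sdiff_add_ncard_of_subset hsub (Set.toFinite _)
  have h2 : (components M \ {cls M e}).ncard ≤ (M.E \ cls M e).ncard := by
    refine Set.ncard_le_ncard_of_injOn (fun K => if h : ∃ x ∈ M.E, K = cls M x then h.choose else e)
      ?_ ?_ (Set.toFinite _)
    · rintro K ⟨⟨x, hx, hK⟩, hne⟩
      have h : ∃ x ∈ M.E, K = cls M x := ⟨x, hx, hK⟩
      simp only [h, dif_pos]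
      have hs := h.choose_spec
      refine ⟨hs.1, ?_⟩
      rintro ⟨-, h3⟩
      apply hne
      rw [mem_singleton_iff, hs.2]
      exact (cls_eq h3).symm
    · rintro K ⟨⟨x, hx, hK⟩, -⟩ K' ⟨⟨x', hx', hK'⟩, -⟩ heq
      have h : ∃ x ∈ M.E, K = cls M x := ⟨x, hx, hK⟩
      have h' : ∃ x ∈ M.E, K' = cls M x := ⟨x', hx', hK'⟩
      simp only [h, h', dif_pos] at heq
      rw [h.choose_spec.2, h'.choose_spec.2, heq]
  have h3 : (components M \ {cls M e}).ncard + 1 = (components M).ncard :=
    Set.ncard_sdiff_singleton_add_one ⟨e, he, rfl⟩ (Set.toFinite _)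
  omega

/-- two bases are not farther apart than the diameter; the diameter is attained -/
lemma diam_spec {M : Matroid α} {D₁ D₂ : Set α} (h₁ : M.IsBase D₁) (h₂ : M.IsBase D₂) :
    (symmDiff D₁ D₂).ncard ≤ diam M := by
  unfold diam
  apply le_csSup
  · refine ⟨Nat.card α, ?_⟩
    rintro d ⟨B, B', -, -, rfl⟩
    rw [← Set.ncard_univ]
    exact Set.ncard_le_ncard (subset_univ _) (Set.toFinite _)
  · exact ⟨D₁, D₂, h₁, h₂, rfl⟩

/-- the colouring with the elements of `S` as colours -/
lemma splits_of {M : Matroid α} (S : Set α) (R : Set α → α → Prop)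
    (hP : ∀ B, M.IsBase B → ∃ x ∈ S, R B x)
    (hR : ∀ B C, M.IsBase B → M.IsBase C → ∀ x ∈ S, R B x → R C x → (symmDiff B C).ncard < diam M) :
    Splits M S.ncard := by
  classical
  have hP' : ∀ B : {B : Set α // M.IsBase B}, ∃ x : S, R B.1 x.1 := by
    intro B
    obtain ⟨x, hx, h⟩ := hP B.1 B.2
    exact ⟨⟨x, hx⟩, h⟩
  choose c hc using hP'
  have e : S ≃ Fin S.ncard := by
    have h1 : Nat.card S = S.ncard := Nat.card_coe_set_eq S
    exact (Finite.equivFin S).trans (finCongr h1)
  refine ⟨fun B => e (c B), fun B B' h => ?_⟩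
  have h1 : c B = c B' := e.injective h
  exact hR B.1 B'.1 B.2 B'.2 (c B).1 (c B).2 (hc B) (by rw [h1]; exact hc B')

theorem exists_splits (M : Matroid α) (B₀ B₁ : Set α) (h₀ : M.IsBase B₀) (h₁ : M.IsBase B₁) (hne01 : B₀ ≠ B₁) :
    ∃ S : Set α, Splits M S.ncard ∧ (∃ e ∈ M.E, S ⊆ cls M e) ∧
      (S.ncard ≤ B₀.ncard + 1 ∨ S.ncard + B₀.ncard ≤ M.E.ncard + 1) := by
  classical
  obtain ⟨A, D₁, D₂, hD₁, hD₂, hcard, hdiam⟩ := exists_diam M
  have hd := diam_spec hD₁ hD₂
  rcases Nat.eq_zero_or_pos (rk M A) with h0 | hpos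
  · -- all elements of `A` are loops
    have hex : ∃ y ∈ B₁, y ∉ B₀ := by
      by_contra hcon
      push Not at hcon
      exact hne01 (h₁.eq_of_subset_isBase h₀ hcon).symm
    obtain ⟨y, hyB', hyB⟩ := hex
    have hyE : y ∈ M.E := h₁.subset_ground hyB'
    let S : Set α := M.fundCircuit y B₀
    have hcirc : M.IsCircuit S := h₀.fundCircuit_isCircuit hyE hyB
    have hyS : y ∈ S := M.mem_fundCircuit y B₀
    have hSsub : S ⊆ insert y B₀ := M.fundCircuit_subset_insert y B₀
    have hSA : ∀ x ∈ S, x ∉ A := by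
      intro x hx hxA
      have hind : M.Indep {x} := by
        rcases hSsub hx with rfl | hxB
        · exact h₁.indep.subset (singleton_subset_iff.2 hyB')
        · exact h₀.indep.subset (singleton_subset_iff.2 hxB)
      have := indep_ncard_le_rk hind (singleton_subset_iff.2 hxA)
      rw [Set.ncard_singleton] at this
      omega
    have hSE : S ⊆ M.E := hcirc.subset_ground
    refine ⟨S, ?_, ⟨y, hyE, ?_⟩, Or.inl ?_⟩
    · refine splits_of S (fun B x => x ∉ B) (fun C hC => ?_) (fun C D hC hD x hxS hxC hxD => ?_)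
      · by_contra hcon
        push Not at hcon
        exact hcirc.not_indep (hC.indep.subset hcon)
      · by_contra hlt
        obtain ⟨-, -, -, hcov⟩ := hdiam C D hC hD (fun h => hlt (h.trans_le hd))
        rcases hcov ⟨hSE hxS, hSA x hxS⟩ with hx | hx
        · exact hxC hx
        · exact hxD hx
    · intro x hx
      exact ⟨hSE hx, Relation.EqvGen.rel _ _ ⟨S, hcirc, hyS, hx⟩⟩
    · calc S.ncard ≤ (insert y B₀).ncard := Set.ncard_le_ncard hSsub (Set.toFinite _)
        _ ≤ B₀.ncard + 1 := Set.ncard_insert_le _ _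
  · -- rank of `A` positive: cocircuit colouring
    have hne : (D₁ ∩ A).Nonempty := by
      rw [← Set.ncard_pos (Set.toFinite _)]
      omega
    obtain ⟨j, hjD, hjA⟩ := hne
    set J := D₁ ∩ A with hJ
    have hJind : M.Indep J := hD₁.indep.subset inter_subset_left
    have hjJ : j ∈ J := ⟨hjD, hjA⟩
    have hjE : j ∈ M.E := hD₁.subset_ground hjD
    have hJb : M.IsBasis' J A := by
      rw [Matroid.isBasis'_iff_indep_encard_eq_of_finite (Set.toFinite _)]
      refine ⟨inter_subset_right, hJind, ?_⟩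
      rw [← Set.Finite.cast_ncard_eq (Set.toFinite J), hcard, coe_rk]
    let S : Set α := {x | x ∈ A ∧ x ∈ M.E ∧ x ∉ M.closure (J \ {j})}
    have hjS : j ∈ S := ⟨hjA, hjE, hJind.notMem_closure_sdiff_of_mem hjJ⟩
    have hx1 : ∀ x ∈ S, x ∉ M.closure (D₁ \ {j}) := by
      rintro x ⟨hxA, hxE, hxcl⟩ hcon
      have hxJ : x ∈ M.closure J := by
        rw [hJb.closure_eq_closure]
        exact M.mem_closure_of_mem' hxA hxE
      apply hxcl
      have h1 : M.closure (J ∩ (D₁ \ {j})) = M.closure J ∩ M.closure (D₁ \ {j}) := by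
        apply Matroid.Indep.closure_inter_eq_inter_closure
        exact hD₁.indep.subset (union_subset inter_subset_left sdiff_subset)
      have h2 : J ∩ (D₁ \ {j}) = J \ {j} := by
        rw [hJ]
        ext z
        simp only [mem_inter_iff, mem_sdiff, mem_singleton_iff]
        tauto
      rw [← h2, h1]
      exact ⟨hxJ, hcon⟩
    have hxD : ∀ x ∈ S, x ≠ j → x ∉ D₁ := by
      intro x hx hxj hcon
      exact hx1 x hx (M.mem_closure_of_mem' ⟨hcon, hxj⟩ hx.2.1)
    refine ⟨S, ?_, ⟨j, hjE, ?_⟩, Or.inr ?_⟩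
    · refine splits_of S (fun B x => (B ∩ A).ncard = rk M A → x ∈ B) (fun C hC => ?_) (fun C D hC hD x hxS hxC hxD => ?_)
      · by_cases hCc : (C ∩ A).ncard = rk M A
        · by_contra hcon
          push Not at hcon
          have hsub : C ∩ A ⊆ M.closure (J \ {j}) := by
            intro x hx
            by_contra hx'
            exact (hcon x ⟨hx.2, hC.subset_ground hx.1, hx'⟩).2 hx.1
          have h1 := indep_ncard_le_rk (hC.indep.subset inter_subset_left) hsub
          have h2 : rk M (M.closure (J \ {j})) = rk M (J \ {j}) := by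
            unfold rk
            rw [M.eRk_closure_eq]
          rw [h2] at h1
          have h3 := rk_le_ncard M (J \ {j})
          have h4 := Set.ncard_sdiff_singleton_add_one hjJ (Set.toFinite _)
          omega
        · exact ⟨j, hjS, fun h => (hCc h).elim⟩
      · by_contra hlt
        obtain ⟨hc1, hc2, hdisj, -⟩ := hdiam C D hC hD (fun h => hlt (h.trans_le hd))
        exact Set.disjoint_left.1 hdisj ⟨hxC hc1, hxS.1⟩ ⟨hxD hc2, hxS.1⟩
    · intro x hx
      refine ⟨hx.2.1, ?_⟩
      by_cases hxj : x = j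
      · rw [hxj]; exact Relation.EqvGen.refl j
      · have hxD' := hxD x hx hxj
        refine Relation.EqvGen.rel _ _ ⟨M.fundCircuit x D₁, hD₁.fundCircuit_isCircuit hx.2.1 hxD', ?_, M.mem_fundCircuit x D₁⟩
        have hxcl : x ∈ M.closure D₁ := by rw [hD₁.closure_eq]; exact hx.2.1
        rw [hD₁.indep.mem_fundCircuit_iff hxcl hxD']
        have hbase := hD₁.exchange_base_of_notMem_closure hjD (hx1 x hx) hx.2.1
        refine hbase.indep.subset ?_
        rintro z ⟨hz1, hz2⟩
        rcases hz1 with rfl | hz1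
        · exact mem_insert _ _
        · exact mem_insert_of_mem _ ⟨hz1, hz2⟩
    · have h1 : (S \ {j}).ncard + 1 = S.ncard := Set.ncard_sdiff_singleton_add_one hjS (Set.toFinite _)
      have h2 : S \ {j} ⊆ M.E \ D₁ := fun x hx => ⟨hx.1.2.1, hxD x hx.1 hx.2⟩
      have h3 := Set.ncard_le_ncard h2 (Set.toFinite _)
      have h4 : (M.E \ D₁).ncard + D₁.ncard = M.E.ncard :=
        Set.ncard_sdiff_add_ncard_of_subset hD₁.subset_ground (Set.toFinite _)
      have h5 := base_ncard_eq hD₁ h₀
      omega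

theorem main (M : Matroid α) (B₀ B₁ : Set α) (h₀ : M.IsBase B₀) (h₁ : M.IsBase B₁) (hne : B₀ ≠ B₁) :
    borsukNumber M ≤
      ((min (M.E.ncard - (components M).ncard) (max B₀.ncard (M.E.ncard - B₀.ncard)) + 1 : ℕ) : ℕ∞) := by
  obtain ⟨S, hS, ⟨e, he, hSe⟩, hb⟩ := exists_splits M B₀ B₁ h₀ h₁ hne
  have h1 : borsukNumber M ≤ (S.ncard : ℕ∞) := iInf₂_le _ hS
  refine h1.trans ?_
  have h2 := ncard_cls_add he
  have h3 := Set.ncard_le_ncard hSe (Set.toFinite _)
  have h4 : B₀.ncard ≤ M.E.ncard := Set.ncard_le_ncard h₀.subset_ground (Set.toFinite _)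
  have h5 : 1 ≤ S.ncard := by
    obtain ⟨g, -⟩ := hS
    have := (g ⟨B₀, h₀⟩).2
    omega
  have h6 : S.ncard ≤ min (M.E.ncard - (components M).ncard) (max B₀.ncard (M.E.ncard - B₀.ncard)) + 1 := by
    rw [← Nat.sub_le_iff_le_add, le_min_iff, le_max_iff]
    constructor
    · omega
    · rcases hb with hb | hb
      · left; omega
      · right; omega
  exact_mod_cast h6

end Pool.Agent.helper3.BN
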