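import Pool.Agent.helper3.BN.Main

/-!
# The bound `f(M) ≤ max r (n - r) - δ + 2`, where `2 δ` is the diameter of the set of bases
-/

set_option autoImplicit false

open Set

namespace Pool.Agent.helper3.BN

variable {α : Type*} [Finite α]

omit [Finite α] in
/-- colourings with any finite set of colours -/
lemma splits_of_map {M : Matroid α} {τ : Type*} [Finite τ] (c : {B : Set α // M.IsBase B} → τ)
    (h : ∀ B B', c B = c B' → (symmDiff B.1 B'.1).ncard < diam M) : Splits M (Nat.card τ) :=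
  ⟨fun B => Finite.equivFin τ (c B), fun B B' he => h B B' ((Finite.equivFin τ).injective he)⟩

/-- colours: the elements of `S`, and one more -/
lemma splits_option {M : Matroid α} (S : Set α) (R : Set α → α → Prop)
    (hR : ∀ B C, M.IsBase B → M.IsBase C → ∀ x ∈ S, R B x → R C x → (symmDiff B C).ncard < diam M)
    (h0 : ∀ B C, M.IsBase B → M.IsBase C → (∀ x ∈ S, ¬ R B x) → (∀ x ∈ S, ¬ R C x) → (symmDiff B C).ncard < diam M) :
    Splits M (S.ncard + 1) := by
  classical
  have e : Nat.card (Option S) = S.ncard + 1 := by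
    rw [← Nat.card_coe_set_eq S, Finite.card_option]
  rw [← e]
  refine splits_of_map (fun B => if h : ∃ x : S, R B.1 x.1 then some h.choose else none) ?_
  rintro ⟨B, hB⟩ ⟨C, hC⟩ hBC
  by_cases h1 : ∃ x : S, R B x.1
  · by_cases h2 : ∃ x : S, R C x.1
    · simp only [h1, h2, dif_pos, Option.some.injEq] at hBC
      have s1 := h1.choose_spec
      have s2 := h2.choose_spec
      rw [← hBC] at s2
      exact hR B C hB hC _ h1.choose.2 s1 s2
    · simp only [h1, h2, dif_pos, dif_neg, not_false_iff] at hBC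
      exact absurd hBC (by simp)
  · by_cases h2 : ∃ x : S, R C x.1
    · simp only [h1, h2, dif_pos, dif_neg, not_false_iff] at hBC
      exact absurd hBC (by simp)
    · exact h0 B C hB hC (fun x hx h => h1 ⟨⟨x, hx⟩, h⟩) (fun x hx h => h2 ⟨⟨x, hx⟩, h⟩)

theorem exists_splits_sharp (M : Matroid α) (B₀ B₁ : Set α) (h₀ : M.IsBase B₀) (h₁ : M.IsBase B₁) (hne01 : B₀ ≠ B₁) :
    ∃ k δ : ℕ, Splits M k ∧ diam M = 2 * δ ∧ k + δ ≤ max B₀.ncard (M.E.ncard - B₀.ncard) + 2 := by
  classical
  obtain ⟨A, D₁, D₂, hD₁, hD₂, hcard, hdiam⟩ := exists_diam M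
  have hd := diam_spec hD₁ hD₂
  -- the union of a farthest pair
  have hun : ∀ C D : Set α, M.IsBase C → M.IsBase D → ¬ ((symmDiff C D).ncard < (symmDiff D₁ D₂).ncard) →
      (C ∪ D).ncard = 2 * rk M A + (M.E \ A).ncard := by
    intro C D hC hD hlt
    obtain ⟨c1, c2, c3, c4⟩ := hdiam C D hC hD hlt
    have s1 := ncard_union_split A C D
    rw [c3.inter_eq, Set.ncard_empty] at s1
    have t1 : (C ∪ D) \ A = M.E \ A := by
      apply Set.Subset.antisymm
      · exact sdiff_subset_sdiff_left (union_subset hC.subset_ground hD.subset_ground)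
      · intro x hx
        exact ⟨c4 hx, hx.2⟩
    rw [t1] at s1
    omega
  have hu := hun D₁ D₂ hD₁ hD₂ (lt_irrefl _)
  -- the diameter
  have hdm : diam M = (symmDiff D₁ D₂).ncard := by
    apply le_antisymm _ hd
    have hne : {d | ∃ B B' : Set α, M.IsBase B ∧ M.IsBase B' ∧ d = (symmDiff B B').ncard}.Nonempty :=
      ⟨_, D₁, D₂, hD₁, hD₂, rfl⟩
    refine csSup_le hne ?_
    rintro d ⟨C, D, hC, hD, rfl⟩
    by_cases hlt : (symmDiff C D).ncard < (symmDiff D₁ D₂).ncard
    · exact hlt.le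
    · have h1 := hun C D hC hD hlt
      have h2 := ncard_symmDiff_add C D
      have h3 := ncard_symmDiff_add D₁ D₂
      have e1 := base_ncard_eq hC h₀
      have e2 := base_ncard_eq hD h₀
      have e3 := base_ncard_eq hD₁ h₀
      have e4 := base_ncard_eq hD₂ h₀
      omega
  have e3 := base_ncard_eq hD₁ h₀
  have e4 := base_ncard_eq hD₂ h₀
  have hsd := ncard_symmDiff_add D₁ D₂
  have hru : B₀.ncard ≤ (D₁ ∪ D₂).ncard := by
    rw [← e3]; exact Set.ncard_le_ncard subset_union_left (Set.toFinite _)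
  have hur : (D₁ ∪ D₂).ncard ≤ 2 * B₀.ncard := by
    have := Set.ncard_union_le D₁ D₂
    omega
  have hlt0 : B₀.ncard < (D₁ ∪ D₂).ncard := by
    by_contra hcon
    have h1 : (symmDiff D₁ D₂).ncard = 0 := by omega
    have h2 := diam_spec h₀ h₁
    rw [hdm, h1] at h2
    have h3 : symmDiff B₀ B₁ = ∅ := (Set.ncard_eq_zero (Set.toFinite _)).1 (by omega)
    exact hne01 (symmDiff_eq_bot.1 h3)
  have hE : (M.E ∩ A).ncard + (M.E \ A).ncard = M.E.ncard :=
    Set.ncard_inter_add_ncard_sdiff_eq_ncard M.E A (Set.toFinite _)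
  have hrE : B₀.ncard ≤ M.E.ncard := Set.ncard_le_ncard h₀.subset_ground (Set.toFinite _)
  rcases Nat.eq_zero_or_pos (rk M A) with hz | hpos
  · -- `A` consists of loops
    have hle : 2 * B₀.ncard - (D₁ ∪ D₂).ncard + 1 ≤ (M.E \ A).ncard := by omega
    obtain ⟨S, hS, hSc⟩ := Set.exists_subset_card_eq hle
    refine ⟨S.ncard + 1, (D₁ ∪ D₂).ncard - B₀.ncard, ?_, by omega, ?_⟩
    · refine splits_option S (fun B x => x ∉ B) ?_ ?_
      · intro C D hC hD x hx hxC hxD
        rw [hdm]
        by_contra hlt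
        obtain ⟨-, -, -, hcov⟩ := hdiam C D hC hD hlt
        rcases hcov (hS hx) with h | h
        · exact hxC h
        · exact hxD h
      · intro C D hC hD hSC hSD
        rw [hdm]
        by_contra hlt
        have h1 := hun C D hC hD hlt
        have h2 : S ⊆ C ∩ D := fun x hx => ⟨not_not.1 (hSC x hx), not_not.1 (hSD x hx)⟩
        have h3 := Set.ncard_le_ncard h2 (Set.toFinite _)
        have h4 := Set.ncard_union_add_ncard_inter C D (Set.toFinite _) (Set.toFinite _)
        have e1 := base_ncard_eq hC h₀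
        have e2 := base_ncard_eq hD h₀
        omega
    · have := le_max_left B₀.ncard (M.E.ncard - B₀.ncard)
      omega
  · have hle : (M.E ∩ A).ncard + 1 - 2 * rk M A ≤ (M.E ∩ A).ncard := by omega
    have h2r : 2 * rk M A ≤ (M.E ∩ A).ncard := by
      obtain ⟨c1, c2, c3, -⟩ := hdiam D₁ D₂ hD₁ hD₂ (lt_irrefl _)
      have h1 : ((D₁ ∩ A) ∪ (D₂ ∩ A)).ncard = (D₁ ∩ A).ncard + (D₂ ∩ A).ncard :=
        Set.ncard_union_eq c3 (Set.toFinite _) (Set.toFinite _)
      have h2 : (D₁ ∩ A) ∪ (D₂ ∩ A) ⊆ M.E ∩ A :=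
        union_subset (inter_subset_inter_left _ hD₁.subset_ground) (inter_subset_inter_left _ hD₂.subset_ground)
      have h3 := Set.ncard_le_ncard h2 (Set.toFinite _)
      omega
    obtain ⟨S, hS, hSc⟩ := Set.exists_subset_card_eq hle
    refine ⟨S.ncard + 1, (D₁ ∪ D₂).ncard - B₀.ncard, ?_, by omega, ?_⟩
    · refine splits_option S (fun B x => x ∈ B) ?_ ?_
      · intro C D hC hD x hx hxC hxD
        rw [hdm]
        by_contra hlt
        obtain ⟨-, -, hdisj, -⟩ := hdiam C D hC hD hlt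
        exact Set.disjoint_left.1 hdisj ⟨hxC, (hS hx).2⟩ ⟨hxD, (hS hx).2⟩
      · intro C D hC hD hSC hSD
        rw [hdm]
        by_contra hlt
        have h1 := hun C D hC hD hlt
        have h2 : C ∪ D ⊆ M.E \ S := by
          rintro x (hx | hx)
          · exact ⟨hC.subset_ground hx, fun h => hSC x h hx⟩
          · exact ⟨hD.subset_ground hx, fun h => hSD x h hx⟩
        have h3 := Set.ncard_le_ncard h2 (Set.toFinite _)
        have h4 : (M.E \ S).ncard + S.ncard = M.E.ncard :=
          Set.ncard_sdiff_add_ncard_of_subset (fun x hx => (hS hx).1) (Set.toFinite _)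
        omega
    · have := le_max_right B₀.ncard (M.E.ncard - B₀.ncard)
      omega

theorem main_sharp (M : Matroid α) (B₀ B₁ : Set α) (h₀ : M.IsBase B₀) (h₁ : M.IsBase B₁) (hne : B₀ ≠ B₁) :
    borsukNumber M ≤
      ((min (M.E.ncard - (components M).ncard + 1) (max B₀.ncard (M.E.ncard - B₀.ncard) + 2 - diam M / 2) : ℕ) : ℕ∞) := by
  have h1 := main M B₀ B₁ h₀ h₁ hne
  obtain ⟨k, δ, hk, hδ, hb⟩ := exists_splits_sharp M B₀ B₁ h₀ h₁ hne
  have h2 : borsukNumber M ≤ (k : ℕ∞) := iInf₂_le _ hk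
  have h3 : k ≤ max B₀.ncard (M.E.ncard - B₀.ncard) + 2 - diam M / 2 := by
    rw [hδ]
    omega
  rcases min_choice (M.E.ncard - (components M).ncard + 1) (max B₀.ncard (M.E.ncard - B₀.ncard) + 2 - diam M / 2) with h | h
  · rw [h]
    refine h1.trans ?_
    have h4 := min_le_left (M.E.ncard - (components M).ncard) (max B₀.ncard (M.E.ncard - B₀.ncard))
    exact_mod_cast Nat.add_le_add_right h4 1
  · rw [h]
    refine h2.trans ?_
    exact_mod_cast h3

end Pool.Agent.helper3.BN
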